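import Pool.Agent.Lib.MP_7b563b_poly.Upper

set_option autoImplicit false

namespace Pool.Agent.Results.MP_7b563b_co.Polynomial

open Pool.Agent.Lib.MP_7b563b_co.Lit

universe u

/-- Every finite graph of sim-width at most `s` with no induced `t`-obstruction has induced
matching treewidth at most `42 t (32 (s+1))^t + 17`, a polynomial in `s` of degree `t`. -/
theorem result {V : Type u} [Finite V] (G : SimpleGraph V) (s t : ℕ)
    (hs : simWidth G ≤ (s : ℕ∞))
    (hobs : ¬ ∃ S : Set V, IsObstruction (G.induce S) t) :
    treeMu G ≤ ((42 * t * (32 * (s + 1)) ^ t + 17 : ℕ) : ℕ∞) :=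
  pmain G s t hs hobs

end Pool.Agent.Results.MP_7b563b_co.Polynomial
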